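import Pool.Agent.Lib.MP_b5021c_nt.IfaceEV

/-!
# Row EV_SEV of PaperEV.md: norms 7 and 3
-/

set_option autoImplicit false

namespace Pool.Agent.B5.H24sev

open Pool.Agent.B5
open Pool.Agent.MP_b5021c_nt (Eis)
open Pool.Agent.MP_b5021c_nt

theorem tab : ∀ a ∈ Finset.Icc (-3 : ℤ) 3, ∀ b ∈ Finset.Icc (-3 : ℤ) 3,
    a ^ 2 - a * b + b ^ 2 = 7 → ∀ c ∈ Finset.Icc (-2 : ℤ) 2, ∀ d ∈ Finset.Icc (-2 : ℤ) 2,
      c ^ 2 - c * d + d ^ 2 = 3 → ∃ p ∈ Finset.Icc (-1 : ℤ) 1, ∃ q ∈ Finset.Icc (-1 : ℤ) 1,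
        p ^ 2 - p * q + q ^ 2 = 1 ∧
        (a + (p * c - q * d)) ^ 2 - (a + (p * c - q * d)) * (b + (p * d + q * c - q * d)) +
          (b + (p * d + q * c - q * d)) ^ 2 = 1 := by
  decide +kernel

theorem bnd {a b n r : ℤ} (h : a ^ 2 - a * b + b ^ 2 = n) (hr : 0 ≤ r) (h1 : 4 * n < 3 * (r + 1) ^ 2) :
    a ∈ Finset.Icc (-r) r ∧ b ∈ Finset.Icc (-r) r := by
  have ha : 3 * a ^ 2 ≤ 4 * n := by nlinarith [sq_nonneg (2 * b - a)]
  have hb : 3 * b ^ 2 ≤ 4 * n := by nlinarith [sq_nonneg (2 * a - b)]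
  have ha1 : a ^ 2 < (r + 1) ^ 2 := by linarith
  have hb1 : b ^ 2 < (r + 1) ^ 2 := by linarith
  have ha2 := abs_lt_of_sq_lt_sq ha1 (by linarith)
  have hb2 := abs_lt_of_sq_lt_sq hb1 (by linarith)
  rw [abs_lt] at ha2 hb2
  rw [Finset.mem_Icc, Finset.mem_Icc]
  omega

theorem sev : Ev7S := by
  intro al m hal hm
  have h1 : al.re ^ 2 - al.re * al.im + al.im ^ 2 = 7 := by
    have := Eis.norm_nonneg al
    rw [← Eis.norm_eq]
    unfold nE at hal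
    omega
  have h2 : m.re ^ 2 - m.re * m.im + m.im ^ 2 = 3 := by
    have := Eis.norm_nonneg m
    rw [← Eis.norm_eq]
    unfold nE at hm
    omega
  obtain ⟨a1, a2⟩ := bnd (r := 3) h1 (by norm_num) (by norm_num)
  obtain ⟨b1, b2⟩ := bnd (r := 2) h2 (by norm_num) (by norm_num)
  obtain ⟨p, -, q, -, hpq, h⟩ := tab _ a1 _ a2 h1 _ b1 _ b2 h2
  have hu : IsUnit (⟨p, q⟩ : Eis) := by
    rw [Eis.isUnit_iff, Eis.norm_eq]
    exact hpq
  refine ⟨hu.unit, ?_⟩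
  have hr : (al + (hu.unit : Eis) * m).re = al.re + (p * m.re - q * m.im) := by
    rw [QuadraticAlgebra.re_add, QuadraticAlgebra.re_mul, IsUnit.unit_spec]
    ring
  have hi : (al + (hu.unit : Eis) * m).im = al.im + (p * m.im + q * m.re - q * m.im) := by
    rw [QuadraticAlgebra.im_add, QuadraticAlgebra.im_mul, IsUnit.unit_spec]
    ring
  have h3 : (al + (hu.unit : Eis) * m).norm = 1 := by
    rw [Eis.norm_eq, hr, hi]
    exact h
  unfold nE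
  rw [h3]
  rfl

end Pool.Agent.B5.H24sev
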