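import Pool.Agent.Lib.MP_b5021c_nt.IfaceE3
import Pool.Agent.Lib.MP_b5021c_nt.B.H71.I1c

/-!
# Board b5, row E3_QM (helper24)
-/

set_option linter.unusedSectionVars false

namespace Pool.Agent.B5.H24qm

open scoped LaurentPolynomial
open Polynomial
open Pool.Agent.B5.H71

section Gen

variable {O : Type} [CommRing O] [IsDomain O] [IsPrincipalIdealRing O] [Coef O]
  {K : Type} [AddCommGroup K] [Module.Free ℤ K] [Module.Finite ℤ K]

theorem sl_zero (hE : SlEvalS) (u : AddChar K Circle) (lam : K →+ ℤ) (z : Circle) (X : AO O K)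
    (hX : Pos lam X) : (sl u lam (spec z X)).eval 0 = evR z (X.coeff 0) := by
  have hN : Nn lam (spec z X) := nn_spec z lam X (nn_of_pos lam X hX)
  obtain ⟨-, h2, -⟩ := hE K u lam (spec z X) hN
  rw [← Polynomial.coeff_zero_eq_eval_zero, h2 0, evC_apply]
  have h3 : (gpart lam ((0 : ℕ) : ℤ) (spec z X)).coeff = Finsupp.single 0 (evR z (X.coeff 0)) := by
    ext a
    change ((spec z X).coeff.filter fun a => lam a = ((0 : ℕ) : ℤ)) a = _
    by_cases ha : a = 0
    · subst ha
      rw [Finsupp.filter_apply_pos _ _ (by simp), Finsupp.single_eq_same, spec_coeff]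
    · rw [Finsupp.single_eq_of_ne ha]
      by_cases hl : lam a = ((0 : ℕ) : ℤ)
      · rw [Finsupp.filter_apply_pos (fun a => lam a = ((0 : ℕ) : ℤ)) _ hl, spec_coeff]
        by_contra hne
        have h4 : a ∈ X.coeff.support := by
          rw [Finsupp.mem_support_iff]
          intro h5
          exact hne (by rw [h5, map_zero])
        have := hX a h4 ha
        rw [hl] at this
        simp at this
      · rw [Finsupp.filter_apply_neg (fun a => lam a = ((0 : ℕ) : ℤ)) _ hl]
  rw [h3, Finsupp.sum_single_index (by simp)]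
  simp

theorem core (hHp : Hp3S) (hE : SlEvalS) (hEv : EvRS) (hSh : SharpS)
    (X U q : AO O K) (g : RO O) (z : Circle) (lam : K →+ ℤ) (hX : Pos lam X) (hU : Pos lam U)
    (hq : ∀ a ∈ q.coeff.support, a ≠ 0 → lam a ≠ 0)
    (hqu : X * sharp (cst g * U) + sharp X * (cst g * U) - (cst g * U) * sharp (cst g * U) =
      q * cst (rsh g) * (U * sharp U))
    (hrq : q * cst (rsh g) = sharp q * cst g)
    (hg : evR z g ≠ 0)
    (hqv : ∀ (u : AddChar K Circle) (s : ℂ), ‖s‖ < 1 → (sl u lam (spec z U)).eval s ≠ 0 ∧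
      ‖evR z g * (sl u lam (spec z U)).eval s‖ ^ 2 ≤
        2 * ((sl u lam (spec z X)).eval s * (starRingEnd ℂ)
          (evR z g * (sl u lam (spec z U)).eval s)).re) :
    (evR z (q.coeff 0) * (starRingEnd ℂ) (evR z g)).re *
        ‖evR z g * evR z (U.coeff 0)‖ ^ 2 ≤
      (2 * (evR z (X.coeff 0) * (starRingEnd ℂ) (evR z g * evR z (U.coeff 0))).re -
        ‖evR z g * evR z (U.coeff 0)‖ ^ 2) * ‖evR z g‖ ^ 2 := by
  classical
  obtain ⟨-, -, hrsh, -⟩ := hEv O
  set gz : ℂ := evR z g with hgz
  set t : K → ℂ := fun a => evR z (q.coeff a) * (starRingEnd ℂ) gz with ht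
  have htneg : ∀ a, t (-a) = (starRingEnd ℂ) (t a) := by
    intro a
    have h1 : evR z ((q * cst (rsh g)).coeff (-a)) = evR z ((sharp q * cst g).coeff (-a)) := by
      rw [hrq]
    have h2 : (q * cst (rsh g)).coeff (-a) = rsh g * q.coeff (-a) := by
      rw [mul_comm, cst_mul_coeff]
    have h3 : (sharp q * cst g).coeff (-a) = g * rsh (q.coeff a) := by
      rw [mul_comm, cst_mul_coeff, sharp_coeff', neg_neg]
    rw [h2, h3, map_mul, map_mul, hrsh, hrsh] at h1
    simp only [ht]
    rw [mul_comm, h1, map_mul, Complex.conj_conj, mul_comm]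
  set F : Finset K := insert 0 (q.coeff.support ∪ q.coeff.support.image (fun a => -a)) with hF
  have hFneg : ∀ a ∈ F, -a ∈ F := by
    intro a ha
    rw [hF, Finset.mem_insert, Finset.mem_union, Finset.mem_image] at ha ⊢
    rcases ha with rfl | ha | ⟨b, hb, rfl⟩
    · left; exact neg_zero
    · right; right; exact ⟨a, ha, rfl⟩
    · right; left; rw [neg_neg]; exact hb
  have hFlam : ∀ a ∈ F, a ≠ 0 → lam a ≠ 0 := by
    intro a ha ha0
    rw [hF, Finset.mem_insert, Finset.mem_union, Finset.mem_image] at ha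
    rcases ha with rfl | ha | ⟨b, hb, rfl⟩
    · exact absurd rfl ha0
    · exact hq a ha ha0
    · rw [map_neg]
      intro h
      exact hq b hb (fun h5 => ha0 (by rw [h5, neg_zero])) (neg_eq_zero.mp h)
  set Tp : ℂ[X] := ∑ a ∈ F, (if a = 0 then Polynomial.C (t 0) else if 0 < lam a then
    Polynomial.monomial (lam a).toNat (2 * t a) else 0) with hTp
  have hTpe : ∀ s : ℂ, Tp.eval s = ∑ a ∈ F, (if a = 0 then t 0 else if 0 < lam a then
      2 * t a * s ^ (lam a).toNat else 0) := by
    intro s
    rw [hTp, Polynomial.eval_finsetSum]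
    apply Finset.sum_congr rfl
    intro a _
    split_ifs <;> simp
  have hTp0 : Tp.eval 0 = t 0 := by
    rw [hTpe, Finset.sum_eq_single 0]
    · simp
    · intro a ha ha0
      rw [if_neg ha0]
      split_ifs with h1
      · rw [zero_pow (by omega), mul_zero]
      · rfl
    · intro h
      exact absurd (Finset.mem_insert_self _ _) h
  -- real part on the circle
  have hcirc : ∀ s : Circle, (Tp.eval (s : ℂ)).re =
      (ev z (twist (1 : AddChar K Circle) lam s) (q * cst (rsh g))).re := by
    intro s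
    have h1 : ev z (twist (1 : AddChar K Circle) lam s) (q * cst (rsh g)) =
        ∑ a ∈ F, t a * ((s ^ (lam a) : Circle) : ℂ) := by
      rw [map_mul]
      have h2 : ev z (twist (1 : AddChar K Circle) lam s) (cst (rsh g)) = (starRingEnd ℂ) gz := by
        rw [cst, ev_single, AddChar.map_zero_eq_one, hrsh]
        simp [hgz]
      have h3 : ev z (twist (1 : AddChar K Circle) lam s) q =
          ∑ a ∈ F, evR z (q.coeff a) * ((s ^ (lam a) : Circle) : ℂ) := by
        have h4 : ev z (twist (1 : AddChar K Circle) lam s) q =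
            ∑ a ∈ q.coeff.support, evR z (q.coeff a) * ((s ^ (lam a) : Circle) : ℂ) := by
          conv_lhs => rw [← AddMonoidAlgebra.sum_coeff_single q, Finsupp.sum, map_sum]
          apply Finset.sum_congr rfl
          intro a _
          rw [ev_single]
          congr 2
          change (1 : Circle) * s ^ (lam a) = _
          rw [one_mul]
        rw [h4]
        apply Finset.sum_subset
        · intro a ha
          rw [hF]
          exact Finset.mem_insert_of_mem (Finset.mem_union_left _ ha)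
        · intro a _ ha
          rw [Finsupp.notMem_support_iff.mp ha, map_zero, zero_mul]
      rw [h2, h3, Finset.sum_mul]
      apply Finset.sum_congr rfl
      intro a _
      simp only [ht]
      ring
    rw [h1, hTpe]
    set f : K → ℝ := fun a => (t a * ((s ^ (lam a) : Circle) : ℂ)).re with hf
    set hh : K → ℝ := fun a => (if a = 0 then t 0 else if 0 < lam a then
      2 * t a * (s : ℂ) ^ (lam a).toNat else 0 : ℂ).re with hhh
    have hfneg : ∀ a, f (-a) = f a := by
      intro a
      simp only [hf]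
      rw [htneg, map_neg, zpow_neg, Circle.coe_inv_eq_conj, ← map_mul, Complex.conj_re]
    have hpair : ∀ a ∈ F, hh a + hh (-a) = f a + f (-a) := by
      intro a ha
      rw [hfneg]
      simp only [hf, hhh]
      by_cases ha0 : a = 0
      · subst ha0
        simp
      · have hna0 : -a ≠ 0 := neg_ne_zero.mpr ha0
        rw [if_neg ha0, if_neg hna0]
        rcases lt_or_gt_of_ne (hFlam a ha ha0) with hl | hl
        · have hl2 : 0 < lam (-a) := by rw [map_neg]; omega
          rw [if_neg (by omega), if_pos hl2]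
          have h5 : (2 * t (-a) * (s : ℂ) ^ (lam (-a)).toNat) =
              2 * (t (-a) * ((s ^ (lam (-a)) : Circle) : ℂ)) := by
            have h6 : ((s ^ (lam (-a)) : Circle) : ℂ) = (s : ℂ) ^ (lam (-a)).toNat := by
              rw [Circle.coe_zpow]
              conv_lhs => rw [← Int.toNat_of_nonneg hl2.le]
              rw [zpow_natCast]
            rw [h6]; ring
          rw [h5]
          have h7 := hfneg a
          simp only [hf] at h7
          rw [Complex.mul_re, h7]
          simp
          ring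
        · have hl2 : ¬ 0 < lam (-a) := by rw [map_neg]; omega
          rw [if_pos hl, if_neg hl2]
          have h5 : (2 * t a * (s : ℂ) ^ (lam a).toNat) =
              2 * (t a * ((s ^ (lam a) : Circle) : ℂ)) := by
            have h6 : ((s ^ (lam a) : Circle) : ℂ) = (s : ℂ) ^ (lam a).toNat := by
              rw [Circle.coe_zpow]
              conv_lhs => rw [← Int.toNat_of_nonneg hl.le]
              rw [zpow_natCast]
            rw [h6]; ring
          rw [h5, Complex.mul_re]
          simp
          ring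
    have hsym : ∀ f' : K → ℝ, ∑ a ∈ F, f' (-a) = ∑ a ∈ F, f' a := by
      intro f'
      apply Finset.sum_nbij' (fun a => -a) (fun a => -a)
      · intro a ha; exact hFneg a ha
      · intro a ha; exact hFneg a ha
      · intro a _; exact neg_neg a
      · intro a _; exact neg_neg a
      · intro a _; rfl
    have h8 : ∑ a ∈ F, hh a + ∑ a ∈ F, hh (-a) = ∑ a ∈ F, f a + ∑ a ∈ F, f (-a) := by
      rw [← Finset.sum_add_distrib, ← Finset.sum_add_distrib]
      exact Finset.sum_congr rfl hpair
    rw [hsym, hsym] at h8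
    have h9 : ∑ a ∈ F, hh a = ∑ a ∈ F, f a := by linarith
    rw [Complex.re_sum, Complex.re_sum]
    exact h9
  -- bound in the disc
  obtain ⟨B, hB⟩ := (isCompact_closedBall (0 : ℂ) 1).exists_bound_of_continuousOn
    (f := fun s => Tp.eval s) Tp.continuous.continuousOn
  have hB' : ∀ s : ℂ, ‖s‖ < 1 → ‖Tp.eval s‖ ≤ B := fun s hs =>
    hB s (mem_closedBall_zero_iff.mpr hs.le)
  set sX : ℂ[X] := sl (1 : AddChar K Circle) lam (spec z X) with hsX
  set sU : ℂ[X] := sl (1 : AddChar K Circle) lam (spec z U) with hsU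
  set v : ℂ[X] := Polynomial.C gz * sU with hv
  have hve : ∀ s, v.eval s = gz * sU.eval s := by
    intro s; rw [hv, Polynomial.eval_mul, Polynomial.eval_C]
  set W : ℂ[X] := Polynomial.C ((‖gz‖ ^ 2 : ℝ) : ℂ) * (2 * sX - v) - Tp * v with hW
  have hWe : ∀ s, (W.eval s * (starRingEnd ℂ) (v.eval s)).re =
      ‖gz‖ ^ 2 * (2 * (sX.eval s * (starRingEnd ℂ) (v.eval s)).re - ‖v.eval s‖ ^ 2) -
        (Tp.eval s).re * ‖v.eval s‖ ^ 2 := by
    intro s
    have h1 : W.eval s * (starRingEnd ℂ) (v.eval s) =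
        ((‖gz‖ ^ 2 : ℝ) : ℂ) * (2 * (sX.eval s * (starRingEnd ℂ) (v.eval s)) -
          v.eval s * (starRingEnd ℂ) (v.eval s)) -
        Tp.eval s * (v.eval s * (starRingEnd ℂ) (v.eval s)) := by
      rw [hW]
      simp only [Polynomial.eval_sub, Polynomial.eval_mul, Polynomial.eval_C,
        Polynomial.eval_ofNat]
      ring
    rw [h1, Complex.mul_conj, Complex.normSq_eq_norm_sq, Complex.sub_re, Complex.re_ofReal_mul,
      Complex.sub_re, Complex.ofReal_re, Complex.re_mul_ofReal]
    have h2 : (2 * (sX.eval s * (starRingEnd ℂ) (v.eval s))).re =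
        2 * (sX.eval s * (starRingEnd ℂ) (v.eval s)).re := by
      rw [Complex.mul_re]; simp
    rw [h2]
  have hZF : ZF v := by
    intro s hs
    rw [hve]
    exact mul_ne_zero hg (hqv 1 s hs).1
  have hdisc : ∀ s : ℂ, ‖s‖ < 1 → -(B * ‖v.eval s‖ ^ 2) ≤
      (W.eval s * (starRingEnd ℂ) (v.eval s)).re := by
    intro s hs
    rw [hWe]
    have h1 := (hqv 1 s hs).2
    rw [← hsU, ← hsX, ← hve] at h1
    have h2 : (Tp.eval s).re ≤ B := (Complex.re_le_norm _).trans (hB' s hs)
    have h3 : 0 ≤ ‖gz‖ ^ 2 * (2 * (sX.eval s * (starRingEnd ℂ) (v.eval s)).re -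
      ‖v.eval s‖ ^ 2) := mul_nonneg (by positivity) (by linarith)
    have h4 : (Tp.eval s).re * ‖v.eval s‖ ^ 2 ≤ B * ‖v.eval s‖ ^ 2 :=
      mul_le_mul_of_nonneg_right h2 (by positivity)
    linarith
  have hNX : Nn lam (spec z X) := nn_spec z lam X (nn_of_pos lam X hX)
  have hNU : Nn lam (spec z U) := nn_spec z lam U (nn_of_pos lam U hU)
  have hon : ∀ s : ℂ, ‖s‖ = 1 → 0 ≤ (W.eval s * (starRingEnd ℂ) (v.eval s)).re := by
    intro s hs
    obtain ⟨s', rfl⟩ : ∃ s' : Circle, (s' : ℂ) = s :=
      ⟨⟨s, by rw [Submonoid.unitSphere, ← SetLike.mem_coe]; simpa using hs⟩, rfl⟩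
    rw [hWe]
    have h1 : sX.eval (s' : ℂ) = ev z (twist (1 : AddChar K Circle) lam s') X :=
      (hE K 1 lam (spec z X) hNX).1 s'
    have h2 : sU.eval (s' : ℂ) = ev z (twist (1 : AddChar K Circle) lam s') U :=
      (hE K 1 lam (spec z U) hNU).1 s'
    have h3 := congrArg (ev z (twist (1 : AddChar K Circle) lam s')) hqu
    have hc : ev z (twist (1 : AddChar K Circle) lam s') (cst g) = gz := by
      rw [cst, ev_single, AddChar.map_zero_eq_one]
      simp [hgz]
    have hshX := (hSh O K X).1 z (twist (1 : AddChar K Circle) lam s')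
    have hshU := (hSh O K U).1 z (twist (1 : AddChar K Circle) lam s')
    have hshV := (hSh O K (cst g * U)).1 z (twist (1 : AddChar K Circle) lam s')
    have hV : ev z (twist (1 : AddChar K Circle) lam s') (cst g * U) = v.eval (s' : ℂ) := by
      rw [map_mul, hc, hve, h2]
    rw [map_sub (ev z _), map_add (ev z _), map_mul (ev z _) X (sharp (cst g * U)),
      map_mul (ev z _) (sharp X) (cst g * U), map_mul (ev z _) (cst g * U) (sharp (cst g * U)),
      map_mul (ev z _) (q * cst (rsh g)) (U * sharp U), map_mul (ev z _) U (sharp U),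
      hshV, hshX, hshU, hV, ← h1, ← h2] at h3
    have h4 := congrArg Complex.re h3
    rw [Complex.mul_conj, Complex.mul_conj, Complex.sub_re, Complex.add_re, Complex.ofReal_re,
      Complex.re_mul_ofReal, ← hcirc s', Complex.normSq_eq_norm_sq,
      Complex.normSq_eq_norm_sq] at h4
    have h5 : ((starRingEnd ℂ) (sX.eval (s' : ℂ)) * v.eval (s' : ℂ)).re =
        (sX.eval (s' : ℂ) * (starRingEnd ℂ) (v.eval (s' : ℂ))).re := by
      rw [← Complex.conj_re, map_mul, Complex.conj_conj]
    rw [h5] at h4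
    have h6 : ‖v.eval (s' : ℂ)‖ ^ 2 = ‖gz‖ ^ 2 * ‖sU.eval (s' : ℂ)‖ ^ 2 := by
      rw [hve, norm_mul, mul_pow]
    have h7 : 2 * (sX.eval (s' : ℂ) * (starRingEnd ℂ) (v.eval (s' : ℂ))).re -
        ‖v.eval (s' : ℂ)‖ ^ 2 = (Tp.eval (s' : ℂ)).re * ‖sU.eval (s' : ℂ)‖ ^ 2 := by
      linarith
    rw [h7, h6]
    apply le_of_eq
    ring
  have hfin := hHp v W B hZF hdisc hon
  rw [hWe, hTp0, hve, sl_zero hE 1 lam z X hX, sl_zero hE 1 lam z U hU] at hfin
  simp only [ht] at hfin
  linarith

end Gen

section Main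

variable {O : Type} [CommRing O] [IsDomain O] [IsPrincipalIdealRing O] [Coef O]
  {P L : Type} [Fintype P] [DecidableEq P] [AddCommGroup L] [Module.Free ℤ L]
  [Module.Finite ℤ L] {phi : L →+ (P → ℤ)} {D : AO O L} {S : L} {i0 : P} {eta : (RO O)ˣ}
  {h : co phi i0 S = 1} {c : RO O} {n : ℕ} {G : Fin n → AO O (Ker (co phi i0))}

/-- The constant coefficient of the product of the restricted factors. -/
theorem coeffU (hC : Coeff0S) (hB5 : B5aS) (fd : FD phi D S i0 eta h c n G) (l : Fin n) (j : P) :
    (Uo phi i0 j G l).coeff 0 = ∏ i ∈ Finset.univ.erase l, (G i).coeff 0 := by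
  classical
  obtain ⟨lam, hlS, hlp⟩ := fd.cc.ray.2.2
  have hpos := (hB5 O L D (co phi i0) S h eta lam hlS hlp).2
  set mu := (lam.comp (incl (Ker (co phi i0)))).comp
    (incl (Ker (co (phK phi (co phi i0)) j))) with hmu
  have key : ∀ s : Finset (Fin n),
      (∏ i ∈ s, res (Ker (co (phK phi (co phi i0)) j)) (G i)).coeff 0 =
        ∏ i ∈ s, (G i).coeff 0 ∧
      Pos mu (∏ i ∈ s, res (Ker (co (phK phi (co phi i0)) j)) (G i)) := by
    intro s
    induction s using Finset.induction_on with
    | empty =>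
      rw [Finset.prod_empty, Finset.prod_empty]
      refine ⟨AddMonoidAlgebra.coeff_one_zero, ?_⟩
      intro a ha ha0
      rw [AddMonoidAlgebra.one_def, AddMonoidAlgebra.coeff_single] at ha
      have := Finsupp.support_single_subset ha
      rw [Finset.mem_singleton] at this
      exact absurd this ha0
    | insert i s hi ih =>
      rw [Finset.prod_insert hi, Finset.prod_insert hi]
      have h1 : Pos mu (res (Ker (co (phK phi (co phi i0)) j)) (G i)) := by
        intro a ha ha0
        have h2 := (fd.full i _ hpos).2.1 (a : Ker (co phi i0))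
        apply h2
        · rw [Finsupp.mem_support_iff] at ha ⊢
          exact ha
        · intro h3
          exact ha0 (Subtype.ext h3)
      have h4 := hC O _ _ _ mu h1 ih.2
      exact ⟨by rw [h4.1, ih.1]; rfl, h4.2⟩
  exact (key _).1

theorem qm3 (hQu : Qu3S) (hQv : Qv3S) (hHp : Hp3S) (hGen : GenS) (hE : SlEvalS) (hEv : EvRS)
    (hSh : SharpS) (hC : Coeff0S) (hB5 : B5aS) : Qm3S := by
  classical
  intro O _ _ _ _ P L _ _ _ _ _ phi D S i0 eta h c n G l b j e hj q hq z
  by_cases hg : evR z (c * (G l).coeff 0) = 0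
  · rw [hg]; simp
  have hqu := hQu O P L phi D S i0 eta h c n G l b j e hj q hq
  obtain ⟨⟨lam0, hX0, hU0⟩, -, hall⟩ := hQv O P L phi D S i0 eta h c n G l b j e hj q hq
  -- generic functional
  set X := Xo phi D i0 j with hXd
  set U := Uo phi i0 j G l with hUd
  obtain ⟨mu, -, hmu1, hmu2⟩ := hGen (Ker (co (phK phi (co phi i0)) j))
    ((X.coeff.support ∪ U.coeff.support).erase 0) (insert 0 q.coeff.support) ⊥ lam0
    (fun k hk => by rw [(Submodule.mem_bot ℤ).mp hk, map_zero])
    (fun m a hm hma => by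
      rw [Submodule.mem_bot] at hma ⊢
      exact (smul_eq_zero.mp hma).resolve_left hm)
    (fun a ha => by
      rw [Finset.mem_erase, Finset.mem_union] at ha
      rcases ha.2 with h1 | h1
      · exact hX0 a h1 ha.1
      · exact hU0 a h1 ha.1)
    (fun a _ a' _ haa => sub_eq_zero.mp ((Submodule.mem_bot ℤ).mp haa))
  have hX : Pos mu X := fun a ha ha0 => hmu1 a (Finset.mem_erase.mpr ⟨ha0,
    Finset.mem_union_left _ ha⟩)
  have hU : Pos mu U := fun a ha ha0 => hmu1 a (Finset.mem_erase.mpr ⟨ha0,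
    Finset.mem_union_right _ ha⟩)
  have hqm : ∀ a ∈ q.coeff.support, a ≠ 0 → mu a ≠ 0 := by
    intro a ha ha0 h1
    exact ha0 (hmu2 a (Finset.mem_insert_of_mem ha) 0 (Finset.mem_insert_self _ _)
      (by rw [h1, map_zero]))
  have h1 := core hHp hE hEv hSh X U q (c * (G l).coeff 0) z mu hX hU hqm hqu hq.rq hg
    (fun u s hs => hall mu hX hU z u s hs)
  have hXc : X.coeff 0 = D.coeff 0 := rfl
  have hV : evR z (D.coeff 0 + (eta : RO O) * D.coeff S) =
      evR z (c * (G l).coeff 0) * evR z (U.coeff 0) := by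
    rw [hUd, coeffU hC hB5 hq.fd l j, hq.fd.v00, ← map_mul, mul_assoc]
    congr 2
    rw [Finset.mul_prod_erase Finset.univ (fun i => (G i).coeff 0) (Finset.mem_univ l)]
  rw [hV, ← hXc]
  exact h1

end Main

end Pool.Agent.B5.H24qm
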