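import Pool.Agent.Lib.MP_b5021c_nt.IfaceE6

/-!
# Board b5, row E6_VHV: very heavy rays, load of type C (`VhvS`)
-/

set_option autoImplicit false

namespace Pool.Agent.B5.H24vhv

open scoped LaurentPolynomial
open Polynomial
open Pool.Agent.B5

theorem tyB_mono {O : Type} [CommRing O] [Coef O] {a b : ℝ} (hab : a ≤ b) {Q F : RO O}
    {e : (RO O)ˣ} (h : TyB a Q F e) : TyB b Q F e := by
  obtain ⟨m, q, f, h1, h2, h3, h4, h5⟩ := h
  exact ⟨m, q, f, h1, h2, h3, h4, h5.trans hab⟩

/-- (E6_VHV) -/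
theorem vhv (hMFC : MfcS) (hONE : One6S) (hNRL : NrlS) : VhvS := by
  classical
  intro P L _ _ _ _ _ phi D S θ E e g hyp hFP h4 hP hRS hG hCar hT hK hg
  have hθ := hyp.big
  have hE := hyp.E0
  have hD := hFP.dd
  have hθpos : (0 : ℝ) < θ := by linarith
  have hinv : 1 / θ ≤ 1 / 2 := by
    rw [div_le_div_iff₀ hθpos (by norm_num)]
    linarith
  -- the drop is zero
  have hg0 : g = 0 := by
    by_contra hne
    obtain ⟨S1, e1, hM⟩ := hg (by omega)
    apply hCar
    intro z x y hx hy h
    apply hMFC ℤ P L phi D S S1 e e1 hD (by omega) hM z x y hx hy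
    rw [map_add] at h
    linear_combination h
  subst hg0
  obtain ⟨i0, hi0⟩ : ∃ i, phi S i = 1 := by
    by_contra hc
    apply hRS.2.1
    apply hD.inj
    rw [map_zero]
    funext i
    rcases hD.bin S hRS.1 i with h1 | h1
    · exact h1
    · exact absurd ⟨i, h1⟩ hc
  have h : co phi i0 S = 1 := hi0
  obtain ⟨θ', h1, h2, h3, h5⟩ := hONE ℤ P L phi D S i0 e h θ (θ - 51 / 100) 0 hFP (by omega) hRS
    (by linarith) hP hG (tyB_mono (by linarith) hT) (fun _ => tyB_mono (by norm_num) hT)
    (hK i0 h)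
  rcases h5 with h5 | h5 | h5
  · push_cast at h5
    have : 2 * (θ - 1 / θ) = 2 * θ - 2 * (1 / θ) := by ring
    rw [this]
    linarith
  · rw [← one_div] at h5
    linarith
  · have hx : θ' ≤ θ - 1 / 4 := by linarith
    have hB := hyp.rl θ' h1 hx
    have hlog : 0 ≤ Real.log (θ / θ') := by
      apply Real.log_nonneg
      rw [le_div_iff₀ (by linarith)]
      linarith
    have hinv' : 1 / θ' ≤ 1 := by
      rw [div_le_one (by linarith)]
      linarith
    have h6 := h5 _ (by linarith) hB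
    push_cast at h6
    refine (hNRL θ E θ' _ (by linarith) hE h1).1 h2 ?_
    linarith

end Pool.Agent.B5.H24vhv
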