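import Pool.Agent.Lib.MP_b5021c_nt.IfaceAM

/-!
# Board b5, stage 3, chapter AM, row DUA: the dual basis of a saturated complement
-/

namespace Pool.Agent.B5.H24dua

open Pool.Agent.B5

theorem dua : DuaS := by
  intro L _ _ _ K g v hg hK
  classical
  set f : (Fin g → ℤ) →ₗ[ℤ] (L ⧸ K) :=
    K.mkQ ∘ₗ Fintype.linearCombination ℤ v with hf
  have hfe : ∀ x : Fin g → ℤ, f x = K.mkQ (Fintype.linearCombination ℤ v x) := fun _ => rfl
  have hsurj : Function.Surjective f := by
    intro q
    obtain ⟨a, rfl⟩ := K.mkQ_surjective q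
    have ha : a ∈ K ⊔ Submodule.span ℤ (Set.range v) := by rw [hK]; trivial
    obtain ⟨k, hk, w, hw, rfl⟩ := Submodule.mem_sup.1 ha
    rw [← Fintype.range_linearCombination (R := ℤ)] at hw
    obtain ⟨x, rfl⟩ := hw
    refine ⟨x, ?_⟩
    rw [hfe, map_add]
    have : K.mkQ k = 0 := by
      rw [← LinearMap.mem_ker, Submodule.ker_mkQ]; exact hk
    rw [this, zero_add]
  have hq : Module.finrank ℤ (L ⧸ K) = g := by
    have := Submodule.finrank_quotient_add_finrank (R := ℤ) K
    omega
  have hker : LinearMap.ker f = ⊥ := by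
    have h1 := Submodule.finrank_quotient_add_finrank (R := ℤ) (LinearMap.ker f)
    have h2 : Module.finrank ℤ ((Fin g → ℤ) ⧸ LinearMap.ker f) = g :=
      (f.quotKerEquivOfSurjective hsurj).finrank_eq.trans hq
    rw [h2, Module.finrank_fin_fun] at h1
    have h3 : Module.finrank ℤ (LinearMap.ker f) = 0 := by omega
    exact Submodule.finrank_eq_zero.1 h3
  let e : (Fin g → ℤ) ≃ₗ[ℤ] (L ⧸ K) :=
    LinearEquiv.ofBijective f ⟨LinearMap.ker_eq_bot.1 hker, hsurj⟩
  have hmu : ∃ mu : Fin g → L →+ ℤ, (∀ i j, mu i (v j) = if i = j then 1 else 0) ∧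
        ∀ a, a ∈ K ↔ ∀ i, mu i a = 0 := by
    refine ⟨fun i => ((LinearMap.proj i ∘ₗ e.symm.toLinearMap) ∘ₗ K.mkQ).toAddMonoidHom, ?_, ?_⟩
    · intro i j
      have h1 : K.mkQ (v j) = e (Pi.single j 1) := by
        change _ = f (Pi.single j 1)
        rw [hfe, Fintype.linearCombination_apply_single, one_smul]
      have h2 : e.symm (K.mkQ (v j)) = Pi.single j 1 := by
        rw [h1, LinearEquiv.symm_apply_apply]
      change e.symm (K.mkQ (v j)) i = _
      rw [h2, Pi.single_apply]
    · intro a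
      have h1 : a ∈ K ↔ K.mkQ a = 0 := by
        rw [← LinearMap.mem_ker, Submodule.ker_mkQ]
      rw [h1, ← e.symm.map_eq_zero_iff]
      constructor
      · intro h i
        change e.symm (K.mkQ a) i = 0
        rw [h]; rfl
      · intro h
        funext i
        exact h i
  obtain ⟨mu, h1, h2⟩ := hmu
  refine ⟨?_, mu, h1, h2⟩
  intro n a hn ha
  rw [h2] at ha ⊢
  intro i
  have := ha i
  rw [map_zsmul, smul_eq_mul] at this
  rcases mul_eq_zero.1 this with h | h
  · exact absurd h hn
  · exact h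

end Pool.Agent.B5.H24dua
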